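import Pool.Agent.helper20.HP.Defs2
import Pool.Agent.helper20.HP.S0

/-!
Killed words in the letter model (module E0 of the project MP_5ae64c_pr).
-/

open scoped BigOperators Topology
open Filter MeasureTheory

namespace Pool.Agent.helper20.HP

section
variable {V : Type} [Fintype V] [DecidableEq V] {K : HW V} {θ : ℝ} {h : ℕ}

theorem fr_spec (K : HW V) (o x : V) : (fr K o x).1 o = x :=
  Classical.choose_spec (exists_frame_aux K o x)

theorem kmT_eq_kmTL (o : V) (Γ : List V) (t : ℕ) (f : V → List V → List V → ℝ) :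
    kmT K Γ t f = kmTL K o Γ t (fun x ρ L => f x ρ (vp o (fr K o x) L)) := by
  unfold kmT kmTL
  refine Finset.sum_congr rfl (fun i _ => ?_)
  have h1 := W_eq_EL K o (fr K o (Γ.get i)) t
    (fun l => ind (∀ y ∈ l, y ∉ Γ) * f (Γ.get i) (Γ.drop (i + 1)) l)
  rw [fr_spec] at h1
  exact h1

theorem km_eq_kmL (o : V) (Γ : List V) (N : ℕ) (f : V → List V → List V → ℝ) :
    km K Γ N f = kmL K o Γ 0 N (fun x ρ L => f x ρ (vp o (fr K o x) L)) := by
  unfold km kmL
  rw [Finset.range_eq_Ico]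
  exact Finset.sum_congr rfl (fun t _ => kmT_eq_kmTL o Γ t f)

theorem kmTL_mono (o : V) (Γ : List V) (t : ℕ) {f g : V → List V → List (Aut K) → ℝ}
    (h : ∀ i : Fin Γ.length, ∀ L, L.length = t → okL K o Γ (Γ.get i) L →
      f (Γ.get i) (Γ.drop (i + 1)) L ≤ g (Γ.get i) (Γ.drop (i + 1)) L) :
    kmTL K o Γ t f ≤ kmTL K o Γ t g := by
  unfold kmTL
  refine Finset.sum_le_sum (fun i _ => EL_mono K o t (fun L hL => ?_))
  by_cases hok : okL K o Γ (Γ.get i) L
  · rw [ind_true hok, one_mul, one_mul]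
    exact h i L hL hok
  · rw [ind_false hok, zero_mul, zero_mul]

theorem kmTL_congr (o : V) (Γ : List V) (t : ℕ) {f g : V → List V → List (Aut K) → ℝ}
    (h : ∀ i : Fin Γ.length, ∀ L, L.length = t → okL K o Γ (Γ.get i) L →
      f (Γ.get i) (Γ.drop (i + 1)) L = g (Γ.get i) (Γ.drop (i + 1)) L) :
    kmTL K o Γ t f = kmTL K o Γ t g :=
  le_antisymm (kmTL_mono o Γ t (fun i L hL hok => (h i L hL hok).le))
    (kmTL_mono o Γ t (fun i L hL hok => (h i L hL hok).ge))

theorem kmTL_add (o : V) (Γ : List V) (t : ℕ) (f g : V → List V → List (Aut K) → ℝ) :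
    kmTL K o Γ t (fun x ρ L => f x ρ L + g x ρ L) = kmTL K o Γ t f + kmTL K o Γ t g := by
  unfold kmTL
  rw [← Finset.sum_add_distrib]
  refine Finset.sum_congr rfl (fun i _ => ?_)
  rw [← EL_add]
  refine EL_congr K o t (fun L _ => ?_)
  ring

theorem kmTL_mul_left (o : V) (Γ : List V) (t : ℕ) (c : ℝ) (f : V → List V → List (Aut K) → ℝ) :
    kmTL K o Γ t (fun x ρ L => c * f x ρ L) = c * kmTL K o Γ t f := by
  unfold kmTL
  rw [Finset.mul_sum]
  refine Finset.sum_congr rfl (fun i _ => ?_)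
  rw [← EL_mul_left]
  refine EL_congr K o t (fun L _ => ?_)
  ring

theorem kmTL_sum {ι : Type*} (s : Finset ι) (o : V) (Γ : List V) (t : ℕ)
    (f : ι → V → List V → List (Aut K) → ℝ) :
    kmTL K o Γ t (fun x ρ L => ∑ i ∈ s, f i x ρ L) = ∑ i ∈ s, kmTL K o Γ t (f i) := by
  unfold kmTL
  rw [Finset.sum_comm]
  refine Finset.sum_congr rfl (fun i _ => ?_)
  rw [← EL_sum]
  refine EL_congr K o t (fun L _ => ?_)
  rw [Finset.mul_sum]

theorem E0_okL_append (o : V) (Γ : List V) (x : V) (L L' : List (Aut K)) :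
    okL K o Γ x (L ++ L') ↔
      okL K o Γ x L ∧ ∀ y ∈ vp o (fr K o x * L.prod) L', y ∉ Γ := by
  unfold okL
  rw [vp_append]
  constructor
  · intro h
    exact ⟨fun y hy => h y (List.mem_append_left _ hy),
      fun y hy => h y (List.mem_append_right _ hy)⟩
  · rintro ⟨h1, h2⟩ y hy
    rcases List.mem_append.1 hy with hy | hy
    · exact h1 y hy
    · exact h2 y hy

theorem kmTL_split (o : V) (Γ : List V) (s k : ℕ) (f : V → List V → List (Aut K) → ℝ) :
    kmTL K o Γ (s + k) f = kmTL K o Γ s (fun x ρ L =>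
      EL K o k (fun L' => ind (∀ y ∈ vp o (fr K o x * L.prod) L', y ∉ Γ) * f x ρ (L ++ L'))) := by
  unfold kmTL
  refine Finset.sum_congr rfl (fun i _ => ?_)
  rw [EL_split]
  refine EL_congr K o s (fun L _ => ?_)
  rw [← EL_mul_left]
  refine EL_congr K o k (fun L' _ => ?_)
  rw [ind_congr (E0_okL_append o Γ (Γ.get i) L L'), ind_and]
  ring

theorem E0_kmTL_nonneg (o : V) (Γ : List V) (t : ℕ) {f : V → List V → List (Aut K) → ℝ}
    (h : ∀ x ρ L, 0 ≤ f x ρ L) : 0 ≤ kmTL K o Γ t f := by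
  unfold kmTL
  exact Finset.sum_nonneg (fun i _ => EL_nonneg K o t
    (fun L _ => mul_nonneg (ind_nonneg _) (h _ _ _)))

theorem kmL_nonneg (o : V) (Γ : List V) (S N : ℕ) {f : V → List V → List (Aut K) → ℝ}
    (h : ∀ x ρ L, 0 ≤ f x ρ L) : 0 ≤ kmL K o Γ S N f := by
  unfold kmL
  exact Finset.sum_nonneg (fun t _ => E0_kmTL_nonneg o Γ t h)

theorem kmL_mono (o : V) (Γ : List V) (S N : ℕ) {f g : V → List V → List (Aut K) → ℝ}
    (h : ∀ i : Fin Γ.length, ∀ L, S ≤ L.length → L.length < N → okL K o Γ (Γ.get i) L →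
      f (Γ.get i) (Γ.drop (i + 1)) L ≤ g (Γ.get i) (Γ.drop (i + 1)) L) :
    kmL K o Γ S N f ≤ kmL K o Γ S N g := by
  unfold kmL
  refine Finset.sum_le_sum (fun t ht => ?_)
  rw [Finset.mem_Ico] at ht
  exact kmTL_mono o Γ t (fun i L hL hok => h i L (hL ▸ ht.1) (hL ▸ ht.2) hok)

theorem kmL_add (o : V) (Γ : List V) (S N : ℕ) (f g : V → List V → List (Aut K) → ℝ) :
    kmL K o Γ S N (fun x ρ L => f x ρ L + g x ρ L) = kmL K o Γ S N f + kmL K o Γ S N g := by
  unfold kmL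
  rw [← Finset.sum_add_distrib]
  exact Finset.sum_congr rfl (fun t _ => kmTL_add o Γ t f g)

theorem kmL_mul_left (o : V) (Γ : List V) (S N : ℕ) (c : ℝ) (f : V → List V → List (Aut K) → ℝ) :
    kmL K o Γ S N (fun x ρ L => c * f x ρ L) = c * kmL K o Γ S N f := by
  unfold kmL
  rw [Finset.mul_sum]
  exact Finset.sum_congr rfl (fun t _ => kmTL_mul_left o Γ t c f)

theorem kmL_le_card (o : V) (Γ : List V) (hΓ : Γ.Nodup) (S N : ℕ) :
    kmL K o Γ S N (fun _ _ _ => 1) ≤ (Fintype.card V : ℝ) := by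
  have h1 : kmL K o Γ S N (fun _ _ _ => 1) ≤ kmL K o Γ 0 N (fun _ _ _ => 1) := by
    unfold kmL
    refine Finset.sum_le_sum_of_subset_of_nonneg ?_ (fun t _ _ => ?_)
    · exact Finset.Ico_subset_Ico (Nat.zero_le _) le_rfl
    · exact E0_kmTL_nonneg o Γ t (fun _ _ _ => zero_le_one)
  have h2 := km_eq_kmL (K := K) o Γ N (fun _ _ _ => (1 : ℝ))
  have h3 := kac K Γ hΓ N
  rw [h2] at h3
  exact h1.trans h3

/-- the profile through letters -/
theorem PhiN_eq_kmL (o : V) (Γ : List V) (N r : ℕ) :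
    PhiN K Γ N r = kmL K o Γ 0 N (fun x ρ L => ind (stL K o x ρ L = r + 1)) := by
  unfold PhiN
  rw [km_eq_kmL (K := K) o Γ N (lev r)]
  rfl

end

end Pool.Agent.helper20.HP
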