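import Pool.Agent.helper20.HP.Defs2
import Pool.Agent.helper20.HP.S1

/-!
The exchange event (module E1 of the project MP_5ae64c_pr).
-/

open scoped BigOperators Topology
open Filter MeasureTheory

namespace Pool.Agent.helper20.HP

section
variable {V : Type} [Fintype V] [DecidableEq V] {K : HW V} {θ : ℝ} {h : ℕ}

theorem f1_nonneg (K : HW V) (o : V) (b g U : ℕ) (w : List (Aut K)) : 0 ≤ f1 K o b g U w := by
  unfold f1
  exact Finset.sum_nonneg (fun u _ => EL_nonneg K o u (fun R _ => ind_nonneg _))

theorem f2_nonneg (K : HW V) (o : V) (b g U : ℕ) (w : List (Aut K)) : 0 ≤ f2 K o b g U w := by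
  unfold f2
  exact Finset.sum_nonneg (fun u _ => ind_nonneg _)

/-- positions of the path of a letter word -/
theorem E1_get (o : V) (L : List (Aut K)) : ∀ (ψ : Aut K) (k : ℕ)
    (hk : k < (ψ.1 o :: vp o ψ L).length),
    (ψ.1 o :: vp o ψ L)[k] = (ψ * (L.take k).prod).1 o := by
  induction L with
  | nil =>
    intro ψ k hk
    simp only [vp, List.length_cons, List.length_nil, zero_add, Nat.lt_one_iff] at hk
    subst hk
    simp
  | cons g L ih =>
    intro ψ k hk
    cases k with
    | zero => simp
    | succ k =>
      have := ih (ψ * g) k (by simpa [vp] using hk)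
      simp only [vp, List.getElem_cons_succ, List.take_succ_cons, List.prod_cons]
      rw [this, mul_assoc]

theorem E1_mem_cons (o : V) (ψ : Aut K) (L : List (Aut K)) (k : ℕ) (hk : k ≤ L.length) :
    (ψ * (L.take k).prod).1 o ∈ ψ.1 o :: vp o ψ L := by
  have h1 : k < (ψ.1 o :: vp o ψ L).length := by
    simp only [List.length_cons, vp_length]; omega
  rw [← E1_get o L ψ k h1]
  exact List.getElem_mem h1

theorem E1_of_mem_cons (o : V) (ψ : Aut K) (L : List (Aut K)) (y : V)
    (hy : y ∈ ψ.1 o :: vp o ψ L) : ∃ k, k ≤ L.length ∧ y = (ψ * (L.take k).prod).1 o := by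
  obtain ⟨k, hk, rfl⟩ := List.getElem_of_mem hy
  refine ⟨k, ?_, E1_get o L ψ k hk⟩
  simp only [List.length_cons, vp_length] at hk
  omega

theorem E1_mem (o : V) (ψ : Aut K) (L : List (Aut K)) (k : ℕ) (hk1 : 1 ≤ k) (hk : k ≤ L.length) :
    (ψ * (L.take k).prod).1 o ∈ vp o ψ L := by
  have h1 : k < (ψ.1 o :: vp o ψ L).length := by
    simp only [List.length_cons, vp_length]; omega
  rw [← E1_get o L ψ k h1]
  obtain ⟨j, rfl⟩ : ∃ j, k = j + 1 := ⟨k - 1, by omega⟩
  rw [List.getElem_cons_succ]
  exact List.getElem_mem _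

theorem E1_of_mem (o : V) (ψ : Aut K) (L : List (Aut K)) (y : V)
    (hy : y ∈ vp o ψ L) : ∃ k, 1 ≤ k ∧ k ≤ L.length ∧ y = (ψ * (L.take k).prod).1 o := by
  obtain ⟨k, hk, rfl⟩ := List.getElem_of_mem hy
  refine ⟨k + 1, by omega, ?_, ?_⟩
  · rw [vp_length] at hk; omega
  · have h1 : k + 1 < (ψ.1 o :: vp o ψ L).length := by
      simp only [List.length_cons]; omega
    rw [← E1_get o L ψ (k + 1) h1, List.getElem_cons_succ]

omit [Fintype V] in
/-- the bottom vertex of a state never changes -/
theorem E1_stp_last (γ : List V) (hγ : γ ≠ []) (y : V) :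
    (stp γ y).getLast? = γ.getLast? ∧ stp γ y ≠ [] := by
  unfold stp
  split_ifs with hy
  · have hne : γ.dropWhile (fun z => decide (z ≠ y)) ≠ [] := by
      intro h
      rw [List.dropWhile_eq_nil_iff] at h
      have := h y hy
      simp at this
    refine ⟨?_, hne⟩
    have hs : γ.dropWhile (fun z => decide (z ≠ y)) <:+ γ := List.dropWhile_suffix _
    obtain ⟨t, ht⟩ := hs
    conv_rhs => rw [← ht]
    rw [List.getLast?_append_of_ne_nil _ hne]
  · refine ⟨?_, by simp⟩
    cases γ with
    | nil => exact absurd rfl hγ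
    | cons a t => simp [List.getLast?_cons_cons]

omit [Fintype V] in
theorem E1_run_last (l : List V) : ∀ γ : List V, γ ≠ [] → (run γ l).getLast? = γ.getLast? := by
  induction l with
  | nil => intro γ _; rfl
  | cons y l ih =>
    intro γ hγ
    have h1 := E1_stp_last γ hγ y
    have h2 : run γ (y :: l) = run (stp γ y) l := rfl
    rw [h2, ih _ h1.2, h1.1]

theorem E1_lel_frame (o : V) (ψ : Aut K) (L : List (Aut K)) :
    lel (ψ.1 o) (vp o ψ L) = lel o (vp o 1 L) := by
  have h1 : vp o ψ L = (vp o 1 L).map ψ.1 := by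
    rw [← vp_mul, mul_one]
  rw [h1, lel_map]

/-- the core of the uniqueness statement -/
theorem E1_unique (o : V) (b g d u1 : ℕ) (hd : 1 ≤ d) (W F : List (Aut K))
    (hW : W.length = b + (d + u1))
    (h1 : Ev K o b g ((W.drop d).take b) (W.drop (d + b)) F)
    (h2 : Ev K o b g (W.take b) (W.drop b) F) : False := by
  obtain ⟨h1a, h1b, -, -, -⟩ := h1
  obtain ⟨h2a, h2b, -, -, h2e⟩ := h2
  -- facts in terms of positions
  have f2b : ∀ i j : ℕ, i ≤ b → 1 ≤ j → j ≤ d + u1 →
      ((W.take (b + j)).prod).1 o ≠ ((W.take i).prod).1 o := by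
    intro i j hi hj1 hj e
    have m1 := E1_mem o (W.take b).prod (W.drop b) j hj1 (by simp [List.length_drop]; omega)
    have m2 := E1_mem_cons o 1 (W.take b) i (by simp [List.length_take]; omega)
    have e1 : (W.take b).prod * ((W.drop b).take j).prod = (W.take (b + j)).prod := by
      rw [← List.prod_append, ← List.take_add]
    have e2 : (1 : Aut K) * ((W.take b).take i).prod = (W.take i).prod := by
      rw [one_mul, List.take_take, min_eq_left hi]
    rw [e1] at m1
    rw [e2] at m2
    rw [e] at m1
    exact h2b _ m1 m2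
  have f2e : ∀ i j : ℕ, j ≤ b + (d + u1) → i + b ≤ j →
      ((W.take i).prod).1 o ≠ ((W.take j).prod).1 o := by
    intro i j hj hij e
    rw [List.take_append_drop] at h2e
    have hi' : i < ((1 : Aut K).1 o :: vp o 1 W).length := by
      simp only [List.length_cons, vp_length]; omega
    have hj' : j < ((1 : Aut K).1 o :: vp o 1 W).length := by
      simp only [List.length_cons, vp_length]; omega
    have := h2e i j hi' hj' hij
    apply this
    have e1 := E1_get o W 1 i hi'
    have e2 := E1_get o W 1 j hj'
    rw [one_mul] at e1 e2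
    exact e1.trans (e.trans e2.symm)
  have f1b : ∀ i j : ℕ, i ≤ b → 1 ≤ j → j ≤ u1 →
      ((W.take (d + b + j)).prod).1 o ≠ ((W.take (d + i)).prod).1 o := by
    intro i j hi hj1 hj e
    have m1 := E1_mem o ((W.drop d).take b).prod (W.drop (d + b)) j hj1
      (by simp [List.length_drop]; omega)
    have m2 := E1_mem_cons o 1 ((W.drop d).take b) i
      (by simp [List.length_take, List.length_drop]; omega)
    have e1 : (W.take d).prod * (((W.drop d).take b).prod * ((W.drop (d + b)).take j).prod)
        = (W.take (d + b + j)).prod := by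
      rw [← mul_assoc, ← List.prod_append, ← List.take_add, ← List.prod_append, ← List.take_add]
    have e2 : (W.take d).prod * ((1 : Aut K) * (((W.drop d).take b).take i).prod)
        = (W.take (d + i)).prod := by
      rw [one_mul, List.take_take, min_eq_left hi, ← List.prod_append, ← List.take_add]
    have key : (((W.drop d).take b).prod * ((W.drop (d + b)).take j).prod).1 o
        = ((1 : Aut K) * (((W.drop d).take b).take i).prod).1 o := by
      apply ((W.take d).prod).1.injective
      have t1 : ((W.take d).prod).1 ((((W.drop d).take b).prod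
          * ((W.drop (d + b)).take j).prod).1 o) = ((W.take (d + b + j)).prod).1 o := by
        rw [← e1]; rfl
      have t2 : ((W.take d).prod).1 (((1 : Aut K) * (((W.drop d).take b).take i).prod).1 o)
          = ((W.take (d + i)).prod).1 o := by
        rw [← e2]; rfl
      rw [t1, t2, e]
    rw [key] at m1
    exact h1b _ m1 m2
  -- decomposition of R2
  set R2 := W.drop b with hR2
  set A := R2.take d with hA
  have hR2len : R2.length = d + u1 := by rw [hR2, List.length_drop]; omega
  have hR1 : W.drop (d + b) = R2.drop d := by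
    rw [hR2, List.drop_drop, add_comm d b]
  rw [hR1] at h1a
  have hsplit : R2 = A ++ R2.drop d := (List.take_append_drop d R2).symm
  have hvp : vp o 1 R2 = vp o 1 A ++ vp o A.prod (R2.drop d) := by
    conv_lhs => rw [hsplit]
    rw [vp_append, one_mul]
  obtain ⟨τ, hτ⟩ := run_head o [] (vp o 1 A)
  have hl : lst o (vp o 1 A) = A.prod.1 o := by
    have := vp_lst K o (1 : Aut K) A
    rw [one_mul] at this
    exact this
  rw [hl] at hτ
  have hAl : A.length = d := by rw [hA, List.length_take]; omega
  have havoid : ∀ y ∈ vp o A.prod (R2.drop d), y ∉ τ := by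
    intro y hy hyτ
    have hmem : y ∈ run [o] (vp o 1 A) := by rw [hτ]; exact List.mem_cons_of_mem _ hyτ
    have hz : y ∈ (1 : Aut K).1 o :: vp o 1 A := by
      rcases mem_run hmem with h | h
      · rw [List.mem_singleton] at h; rw [h]; exact List.mem_cons_self
      · exact List.mem_cons_of_mem _ h
    obtain ⟨i, hi, ei⟩ := E1_of_mem_cons o 1 A y hz
    obtain ⟨j, hj1, hj, ej⟩ := E1_of_mem o A.prod (R2.drop d) y hy
    have hj' : j ≤ u1 := by rw [List.length_drop] at hj; omega
    rw [hAl] at hi
    have ei' : (W.take b).prod * ((1 : Aut K) * (A.take i).prod) = (W.take (b + i)).prod := by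
      rw [one_mul, hA, List.take_take, min_eq_left hi, ← List.prod_append, ← List.take_add]
    have ej' : (W.take b).prod * (A.prod * ((R2.drop d).take j).prod)
        = (W.take (b + d + j)).prod := by
      rw [hA, hR2, ← mul_assoc, ← List.prod_append, ← List.take_add, List.drop_drop,
        ← List.prod_append, ← List.take_add]
    have e : ((W.take (b + i)).prod).1 o = ((W.take (b + d + j)).prod).1 o := by
      rw [← ei', ← ej']
      change (W.take b).prod.1 (((1 : Aut K) * (A.take i).prod).1 o)
        = (W.take b).prod.1 ((A.prod * ((R2.drop d).take j).prod).1 o)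
      rw [← ei, ← ej]
    by_cases hc : b + i + b ≤ b + d + j
    · exact f2e (b + i) (b + d + j) (by omega) hc e
    · have hk : b + i = d + (b + i - d) := by omega
      have := f1b (b + i - d) j (by omega) hj1 hj'
      rw [← hk, add_comm d b] at this
      exact this e.symm
  have hrun : (run [o] (vp o 1 R2)).length = lel o (vp o 1 R2) + 1 := run_single_length o _
  rw [hvp, run_append, hτ, run_avoid_length _ _ _ havoid, E1_lel_frame, ← hvp, h1a, h2a] at hrun
  have hτ0 : τ = [] := by
    have : τ.length = 0 := by omega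
    exact List.length_eq_zero_iff.1 this
  rw [hτ0] at hτ
  have hlast := E1_run_last (vp o 1 A) [o] (by simp)
  rw [hτ] at hlast
  have hAo : A.prod.1 o = o := by simpa using hlast
  have := f2b b d le_rfl hd (by omega)
  apply this
  have e1 : (W.take (b + d)).prod = (W.take b).prod * A.prod := by
    rw [hA, hR2, ← List.prod_append, ← List.take_add]
  rw [e1]
  change (W.take b).prod.1 (A.prod.1 o) = _
  rw [hAo]

theorem E1_sum_ind_le_one (s : Finset ℕ) (p : ℕ → Prop)
    (hp : ∀ u ∈ s, ∀ v ∈ s, u < v → p u → p v → False) : ∑ u ∈ s, ind (p u) ≤ 1 := by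
  by_cases hex : ∃ u ∈ s, p u
  · obtain ⟨u, hu, hpu⟩ := hex
    rw [Finset.sum_eq_single u]
    · exact ind_le_one _
    · intro v hv hvu
      apply ind_false
      intro hpv
      rcases lt_or_gt_of_ne hvu with h | h
      · exact hp v hv u hu h hpv hpu
      · exact hp u hu v hv h hpu hpv
    · intro h; exact absurd hu h
  · push Not at hex
    rw [Finset.sum_eq_zero (fun u hu => ind_false (hex u hu))]
    exact zero_le_one

theorem f2_le_one (K : HW V) (o : V) (b g U : ℕ) (hb : 1 ≤ b) (hg : 1 ≤ g) (w : List (Aut K))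
    (hw : w.length = 2 * b + U) : f2 K o b g U w ≤ 1 := by
  unfold f2
  refine E1_sum_ind_le_one _ _ (fun u1 hu1 u2 hu2 hlt h1 h2 => ?_)
  rw [Finset.mem_range] at hu1 hu2
  obtain ⟨d, rfl⟩ : ∃ d, u2 = d + u1 := ⟨u2 - u1, by omega⟩
  set W := (w.drop (U - (d + u1))).take (b + (d + u1)) with hWdef
  have hW : W.length = b + (d + u1) := by
    rw [hWdef, List.length_take, List.length_drop]; omega
  refine E1_unique o b g d u1 (by omega) W (w.drop (b + U)) hW ?_ ?_
  · have e1 : (W.drop d).take b = (w.drop (U - u1)).take b := by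
      rw [hWdef, List.drop_take, List.drop_drop, List.take_take]
      congr 1
      · omega
      · congr 1; omega
    have e2 : W.drop (d + b) = (w.drop (b + U - u1)).take u1 := by
      rw [hWdef, List.drop_take, List.drop_drop]
      congr 1
      · omega
      · congr 1; omega
    rw [e1, e2]
    exact h1
  · have e1 : W.take b = (w.drop (U - (d + u1))).take b := by
      rw [hWdef, List.take_take]
      congr 1
      omega
    have e2 : W.drop b = (w.drop (b + U - (d + u1))).take (d + u1) := by
      rw [hWdef, List.drop_take, List.drop_drop]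
      congr 1
      · omega
      · congr 1; omega
    rw [e1, e2]
    exact h2

theorem f1_le (hP : Par K θ h) (o : V) (b g U : ℕ) (hU : U ≤ Nat.sqrt (Fintype.card V))
    (w : List (Aut K)) : f1 K o b g U w ≤ CZ θ := by
  refine le_trans ?_ (Zq_le hP U g o hU)
  unfold f1 Zq
  refine Finset.sum_le_sum (fun u _ => ?_)
  have h1 := W_eq_EL K o (1 : Aut K) u (fun l => ind (lel o l = g))
  have h2 : (1 : Aut K).1 o = o := rfl
  rw [h2] at h1
  rw [h1]
  exact EL_mono K o u (fun R _ => ind_mono (fun hE => hE.1))

theorem EL_f1 (K : HW V) (o : V) (b g U : ℕ) :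
    EL K o (2 * b + U) (f1 K o b g U) = kap K o b g U := by
  have e : 2 * b + U = U + (b + b) := by ring
  rw [e, EL_split]
  have h1 : ∀ w1 : List (Aut K), w1.length = U →
      EL K o (b + b) (fun L' => f1 K o b g U (w1 ++ L')) = kap K o b g U := by
    intro w1 hw1
    rw [EL_split]
    have h2 : EL K o b (fun B => EL K o b (fun F => f1 K o b g U (w1 ++ (B ++ F))))
        = EL K o b (fun B => EL K o b (fun F =>
          ∑ u ∈ Finset.range (U + 1), EL K o u (fun R => ind (Ev K o b g B R F)))) := by
      refine EL_congr K o b (fun B hB => EL_congr K o b (fun F hF => ?_))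
      have e1 : ((w1 ++ (B ++ F)).drop U).take b = B := by
        rw [← hw1, List.drop_left, ← hB, List.take_left]
      have e2 : (w1 ++ (B ++ F)).drop (b + U) = F := by
        rw [← List.append_assoc, ← hw1, ← hB, add_comm, ← List.length_append, List.drop_left]
      unfold f1
      rw [e1, e2]
    rw [h2]
    have h3 : EL K o b (fun B => EL K o b (fun F =>
          ∑ u ∈ Finset.range (U + 1), EL K o u (fun R => ind (Ev K o b g B R F))))
        = EL K o b (fun B => ∑ u ∈ Finset.range (U + 1), EL K o u (fun R =>
          EL K o b (fun F => ind (Ev K o b g B R F)))) := by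
      refine EL_congr K o b (fun B hB => ?_)
      rw [EL_sum]
      exact Finset.sum_congr rfl (fun u _ => EL_comm K o b u _)
    rw [h3, EL_sum]
    rfl
  rw [EL_congr K o U h1, EL_const]

theorem EL_f2 (K : HW V) (o : V) (b g U : ℕ) :
    EL K o (2 * b + U) (f2 K o b g U) = kap K o b g U := by
  have h0 : EL K o (2 * b + U) (f2 K o b g U) = ∑ u ∈ Finset.range (U + 1),
      EL K o (2 * b + U) (fun w => ind (Ev K o b g ((w.drop (U - u)).take b)
        ((w.drop (b + U - u)).take u) (w.drop (b + U)))) := by
    rw [← EL_sum]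
    rfl
  rw [h0]
  unfold kap
  refine Finset.sum_congr rfl (fun u hu => ?_)
  rw [Finset.mem_range] at hu
  have e : 2 * b + U = (U - u) + (b + (u + b)) := by omega
  rw [e, EL_split]
  have h1 : ∀ w1 : List (Aut K), w1.length = U - u →
      EL K o (b + (u + b)) (fun L' => ind (Ev K o b g (((w1 ++ L').drop (U - u)).take b)
        (((w1 ++ L').drop (b + U - u)).take u) ((w1 ++ L').drop (b + U))))
      = EL K o b (fun B => EL K o u (fun R => EL K o b (fun F => ind (Ev K o b g B R F)))) := by
    intro w1 hw1
    rw [EL_split]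
    refine EL_congr K o b (fun B hB => ?_)
    rw [EL_split]
    refine EL_congr K o u (fun R hR => EL_congr K o b (fun F hF => ?_))
    have e1 : ((w1 ++ (B ++ (R ++ F))).drop (U - u)).take b = B := by
      rw [← hw1, List.drop_left, ← hB, List.take_left]
    have e2 : ((w1 ++ (B ++ (R ++ F))).drop (b + U - u)).take u = R := by
      have : b + U - u = (w1 ++ B).length := by rw [List.length_append, hw1, hB]; omega
      rw [this, ← List.append_assoc, List.drop_left, ← hR, List.take_left]
    have e3 : (w1 ++ (B ++ (R ++ F))).drop (b + U) = F := by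
      have : b + U = (w1 ++ (B ++ R)).length := by
        rw [List.length_append, List.length_append, hw1, hB, hR]; omega
      rw [this]
      have e4 : w1 ++ (B ++ (R ++ F)) = (w1 ++ (B ++ R)) ++ F := by
        simp [List.append_assoc]
      rw [e4, List.drop_left]
    rw [e1, e2, e3]
  rw [EL_congr K o (U - u) h1, EL_const]

theorem kap_nonneg (K : HW V) (o : V) (b g U : ℕ) : 0 ≤ kap K o b g U := by
  unfold kap
  exact Finset.sum_nonneg (fun u _ => EL_nonneg K o b (fun B _ => EL_nonneg K o u
    (fun R _ => EL_nonneg K o b (fun F _ => ind_nonneg _))))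

theorem kap_le (hP : Par K θ h) (o : V) (b g U : ℕ) (hU : U ≤ Nat.sqrt (Fintype.card V)) :
    kap K o b g U ≤ CZ θ := by
  rw [← EL_f1]
  calc EL K o (2 * b + U) (f1 K o b g U) ≤ EL K o (2 * b + U) (fun _ => CZ θ) :=
        EL_mono K o _ (fun w _ => f1_le hP o b g U hU w)
    _ = CZ θ := EL_const K o _ _

end

end Pool.Agent.helper20.HP
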